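import Mathlib

/-!
# MP_14f8d9_co, Q1: a flag-transitive point-imprimitive symmetric design outside the construction

The complement of the design of points and planes of `PG(3, 2)`, a symmetric `2-(15, 8, 4)` design,
has a flag-transitive point-imprimitive group, and it does not arise from the construction.
-/

namespace Pool.Agent.Results.MP_14f8d9_co.FifteenEightFour

/-- The incidence relation `inc` between points and blocks is a `2-(v, k, lam)` design. -/
structure IsTwoDesign {X B : Type} (inc : X → B → Prop) (v k lam : ℕ) : Prop where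
  card_points : Nat.card X = v
  block_size : ∀ b, Nat.card {x // inc x b} = k
  pair : ∀ x y, x ≠ y → Nat.card {b // inc x b ∧ inc y b} = lam

/-- The input of the construction. -/
structure Input (Δ₀ Δ₁ P₀ L₀ L₁ L₂ : Type) where
  (v₀ k₀ lam₀ s r v₁ lam₁ k₂ lam₂ : ℕ)
  /-- incidence of the design `D₀` -/
  inc₀ : Δ₀ → L₀ → Prop
  /-- the parallel class of a block of `D₀` -/
  cls : L₀ → P₀
  /-- incidence of the design `D₁` -/
  inc₁ : Δ₁ → L₁ → Prop
  /-- the bijections from the set of parallel classes to the blocks of `D₁` -/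
  ψ : L₁ → P₀ → Δ₁
  /-- incidence of the transversal design `D₂` -/
  inc₂ : L₀ → L₂ → Prop
  design₀ : IsTwoDesign inc₀ v₀ k₀ lam₀
  card_classes : Nat.card P₀ = r
  class_size : ∀ P, Nat.card {ℓ // cls ℓ = P} = s
  class_partition : ∀ P x, ∃! ℓ, cls ℓ = P ∧ inc₀ x ℓ
  design₁ : IsTwoDesign inc₁ v₁ r lam₁
  symmetric₁ : Nat.card L₁ = v₁
  ψ_bij : ∀ β, Set.BijOn (ψ β) Set.univ {j | inc₁ j β}
  ψ_unique : ∀ P i, ∃! β, ψ β P = i
  block_size₂ : ∀ γ, Nat.card {ℓ // inc₂ ℓ γ} = k₂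
  k₂_le : k₂ ≤ r
  group₂ : ∀ γ ℓ ℓ', inc₂ ℓ γ → inc₂ ℓ' γ → cls ℓ = cls ℓ' → ℓ = ℓ'
  pair₂ : ∀ ℓ ℓ', cls ℓ ≠ cls ℓ' → Nat.card {γ // inc₂ ℓ γ ∧ inc₂ ℓ' γ} = lam₂

/-- The block `B_β(γ)` of the output: the union of the sets `ℓ_j × {j}`, where `ℓ_j` is the block
of `D₀` in `γ` whose class is mapped to `j` by `ψ_β`. -/
def Input.block {Δ₀ Δ₁ P₀ L₀ L₁ L₂ : Type} (I : Input Δ₀ Δ₁ P₀ L₀ L₁ L₂) (β : L₁) (γ : L₂) :
    Set (Δ₀ × Δ₁) :=
  {p | ∃ ℓ, I.inc₂ ℓ γ ∧ I.ψ β (I.cls ℓ) = p.2 ∧ I.inc₀ p.1 ℓ}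

/-- The incidence structure `inc` is isomorphic to an output of the construction with
`v₀, v₁ ≥ 2`: some bijection of the points maps its blocks to the blocks `B_β(γ)`. -/
def Arises {X B : Type} (inc : X → B → Prop) : Prop :=
  ∃ (Δ₀ Δ₁ P₀ L₀ L₁ L₂ : Type) (_ : Finite Δ₀) (_ : Finite Δ₁) (_ : Finite P₀) (_ : Finite L₀)
    (_ : Finite L₁) (_ : Finite L₂) (I : Input Δ₀ Δ₁ P₀ L₀ L₁ L₂) (e : X ≃ Δ₀ × Δ₁),
    2 ≤ I.v₀ ∧ 2 ≤ I.v₁ ∧
    Set.range (fun b => e '' {x | inc x b}) = Set.range fun q : L₁ × L₂ => I.block q.1 q.2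

/-- `G` is a group of automorphisms of `inc` (acting on points and on blocks). -/
def IsAutGroup {X B : Type} (inc : X → B → Prop)
    (G : Subgroup (Equiv.Perm X × Equiv.Perm B)) : Prop :=
  ∀ g ∈ G, ∀ x b, inc (g.1 x) (g.2 b) ↔ inc x b

/-- `G` is transitive on the incident point-block pairs. -/
def FlagTransitive {X B : Type} (inc : X → B → Prop)
    (G : Subgroup (Equiv.Perm X × Equiv.Perm B)) : Prop :=
  ∀ x b y c, inc x b → inc y c → ∃ g ∈ G, g.1 x = y ∧ g.2 b = c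

/-- `G` preserves a partition of the points which is neither the partition into singletons nor
the partition with one part. -/
def PointImprimitive {X B : Type} (G : Subgroup (Equiv.Perm X × Equiv.Perm B)) : Prop :=
  ∃ R : Setoid X, R ≠ ⊥ ∧ R ≠ ⊤ ∧ ∀ g ∈ G, ∀ x y, R (g.1 x) (g.1 y) ↔ R x y

section Count

variable {Δ₀ Δ₁ P₀ L₀ L₁ L₂ : Type} [Finite Δ₀] [Finite Δ₁] [Finite P₀] [Finite L₀]
  [Finite L₁] [Finite L₂]

theorem card_block (I : Input Δ₀ Δ₁ P₀ L₀ L₁ L₂) (β : L₁) (γ : L₂) :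
    Nat.card (I.block β γ) = I.k₂ * I.k₀ := by
  classical
  have := Fintype.ofFinite L₀
  have e : I.block β γ ≃ Σ ℓ : {ℓ // I.inc₂ ℓ γ}, {x // I.inc₀ x ℓ.1} := by
    refine Equiv.symm (Equiv.ofBijective
      (fun t => ⟨(t.2.1, I.ψ β (I.cls t.1.1)), ⟨t.1.1, t.1.2, rfl, t.2.2⟩⟩) ⟨?_, ?_⟩)
    · rintro ⟨⟨ℓ, hℓ⟩, ⟨x, hx⟩⟩ ⟨⟨ℓ', hℓ'⟩, ⟨x', hx'⟩⟩ h
      have h0 := congrArg Subtype.val h
      have h1 : x = x' := congrArg Prod.fst h0
      have h2 : I.ψ β (I.cls ℓ) = I.ψ β (I.cls ℓ') := congrArg Prod.snd h0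
      subst h1
      have h3 := (I.ψ_bij β).injOn (Set.mem_univ _) (Set.mem_univ _) h2
      have h4 := I.group₂ γ ℓ ℓ' hℓ hℓ' h3
      subst h4
      rfl
    · rintro ⟨⟨x, j⟩, ℓ, h1, h2, h3⟩
      refine ⟨⟨⟨ℓ, h1⟩, ⟨x, h3⟩⟩, ?_⟩
      exact Subtype.ext (Prod.ext rfl h2)
  rw [Nat.card_congr e, Nat.card_sigma]
  simp only [I.design₀.block_size]
  rw [Finset.sum_const, Finset.card_univ, ← Nat.card_eq_fintype_card, I.block_size₂, smul_eq_mul]

theorem k₂_le_v₁ (I : Input Δ₀ Δ₁ P₀ L₀ L₁ L₂) (β : L₁) (γ : L₂) : I.k₂ ≤ I.v₁ := by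
  rw [← I.block_size₂ γ, ← I.design₁.card_points]
  refine Nat.card_le_card_of_injective (fun ℓ => I.ψ β (I.cls ℓ.1)) ?_
  rintro ⟨ℓ, hℓ⟩ ⟨ℓ', hℓ'⟩ h
  have h3 := (I.ψ_bij β).injOn (Set.mem_univ _) (Set.mem_univ _) h
  exact Subtype.ext (I.group₂ γ ℓ ℓ' hℓ hℓ' h3)

theorem v₀_eq (I : Input Δ₀ Δ₁ P₀ L₀ L₁ L₂) (P : P₀) : I.v₀ = I.s * I.k₀ := by
  classical
  have := Fintype.ofFinite L₀
  have e : Δ₀ ≃ Σ ℓ : {ℓ // I.cls ℓ = P}, {x // I.inc₀ x ℓ.1} := by
    refine Equiv.symm (Equiv.ofBijective (fun t => t.2.1) ⟨?_, ?_⟩)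
    · rintro ⟨⟨ℓ, hℓ⟩, ⟨x, hx⟩⟩ ⟨⟨ℓ', hℓ'⟩, ⟨x', hx'⟩⟩ h
      simp only at h
      subst h
      have h4 : ℓ = ℓ' := (I.class_partition P x).unique ⟨hℓ, hx⟩ ⟨hℓ', hx'⟩
      subst h4
      rfl
    · intro x
      obtain ⟨ℓ, ⟨h1, h2⟩, _⟩ := I.class_partition P x
      exact ⟨⟨⟨ℓ, h1⟩, ⟨x, h2⟩⟩, rfl⟩
  rw [← I.design₀.card_points, Nat.card_congr e, Nat.card_sigma]
  simp only [I.design₀.block_size]
  rw [Finset.sum_const, Finset.card_univ, ← Nat.card_eq_fintype_card, I.class_size, smul_eq_mul]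

end Count

/-- A structure on 15 points all whose blocks have 8 points does not arise from the
construction. -/
theorem not_arises {B : Type} [Nonempty B] (inc : Fin 15 → B → Prop)
    (hb : ∀ b, Nat.card {x // inc x b} = 8) : ¬ Arises inc := by
  rintro ⟨Δ₀, Δ₁, P₀, L₀, L₁, L₂, _, _, _, _, _, _, I, e, h0, h1, hr⟩
  obtain ⟨b⟩ := ‹Nonempty B›
  have hb' : e '' {x | inc x b} ∈ Set.range fun q : L₁ × L₂ => I.block q.1 q.2 := by
    rw [← hr]
    exact ⟨b, rfl⟩
  obtain ⟨⟨β, γ⟩, hβγ⟩ := hb'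
  have hc : Nat.card (I.block β γ) = 8 := by
    simp only at hβγ
    rw [hβγ, Nat.card_image_of_injective e.injective]
    exact hb b
  rw [card_block] at hc
  have hk := k₂_le_v₁ I β γ
  have hv : I.v₀ * I.v₁ = 15 := by
    rw [← I.design₀.card_points, ← I.design₁.card_points, ← Nat.card_prod, ← Nat.card_congr e]
    simp
  have hne : Nonempty {ℓ // I.inc₂ ℓ γ} := by
    rw [← Finite.card_pos_iff, I.block_size₂]
    rcases Nat.eq_zero_or_pos I.k₂ with h | h
    · rw [h] at hc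
      omega
    · exact h
  obtain ⟨⟨ℓ, _⟩⟩ := hne
  have hs := v₀_eq I (I.cls ℓ)
  generalize I.v₀ = a at *
  generalize I.v₁ = c at *
  generalize I.k₂ = d at *
  generalize I.k₀ = f at *
  generalize I.s = g at *
  have ha : a ∣ 15 := ⟨c, hv.symm⟩
  have hf : f ∣ 8 := ⟨d, by rw [mul_comm]; exact hc.symm⟩
  have hfa : f ∣ a := ⟨g, by rw [hs, mul_comm]⟩
  have hf1 : f = 1 := by
    have : f ∣ Nat.gcd 8 15 := Nat.dvd_gcd hf (hfa.trans ha)
    simpa using this
  subst hf1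
  have : d = 8 := by omega
  subst this
  nlinarith

/-! ### The design -/

/-- Points and blocks are the 15 nonzero vectors of the plane over the field with four elements;
a point and a block are incident if the trace of their determinant is one. -/
def inc (x b : Fin 15) : Prop :=
  ((19031323061090418831518970362695596335884328643274723778600973926272 : ℕ) >>> (15 * x.val + b.val)) % 2 = 1

instance : DecidableRel inc := fun x b => by
  unfold inc
  infer_instance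

/-- The class (one-dimensional subspace over the field with four elements) of a point. -/
def cl : Fin 15 → Fin 5 := ![0, 0, 0, 1, 2, 3, 4, 1, 4, 2, 3, 1, 3, 4, 2]

/-- Four semilinear maps. -/
def t : Fin 4 → Fin 15 → Fin 15 :=
  ![![4, 9, 14, 3, 0, 13, 10, 7, 12, 1, 6, 11, 8, 5, 2],
    ![8, 13, 6, 3, 12, 9, 2, 7, 0, 5, 14, 11, 4, 1, 10],
    ![3, 7, 11, 0, 4, 8, 12, 1, 5, 9, 13, 2, 6, 10, 14],
    ![0, 2, 1, 3, 4, 6, 5, 11, 12, 14, 13, 7, 8, 10, 9]]

theorem t_t : ∀ i x, t i (t i x) = x := by decide +kernel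

theorem t_inc : ∀ i x b, inc (t i x) (t i b) ↔ inc x b := by decide +kernel

theorem t_cl : ∀ i x y, cl (t i x) = cl (t i y) ↔ cl x = cl y := by decide +kernel

/-- The maps as permutations. -/
def p (i : Fin 4) : Equiv.Perm (Fin 15) := ⟨t i, t i, t_t i, t_t i⟩

/-- The group of all automorphisms preserving the classes. -/
def G : Subgroup (Equiv.Perm (Fin 15) × Equiv.Perm (Fin 15)) where
  carrier := {g | (∀ x b, inc (g.1 x) (g.2 b) ↔ inc x b) ∧
    ∀ x y, cl (g.1 x) = cl (g.1 y) ↔ cl x = cl y}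
  mul_mem' := by
    rintro g h ⟨g1, g2⟩ ⟨h1, h2⟩
    refine ⟨fun x b => ?_, fun x y => ?_⟩
    · exact (g1 _ _).trans (h1 x b)
    · exact (g2 _ _).trans (h2 x y)
  one_mem' := ⟨fun _ _ => Iff.rfl, fun _ _ => Iff.rfl⟩
  inv_mem' := by
    rintro g ⟨g1, g2⟩
    refine ⟨fun x b => ?_, fun x y => ?_⟩
    · have := g1 (g⁻¹.1 x) (g⁻¹.2 b)
      simpa using this.symm
    · have := g2 (g⁻¹.1 x) (g⁻¹.1 y)
      simpa using this.symm

theorem p_mem (i : Fin 4) : (p i, p i) ∈ G := ⟨fun x b => t_inc i x b, fun x y => t_cl i x y⟩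

/-- The generator that brings a flag closer to the first one. -/
def nx (x b : Fin 15) : Fin 4 :=
  ⟨((395005961886939533445852764400397262277440250052235875248728004312957041989805541186146388678756172218207451627919320619642150870712320 : ℕ)
    >>> (2 * (15 * x.val + b.val))) % 4, Nat.mod_lt _ (by norm_num)⟩

/-- The distance of a flag from the first one. -/
def rk (x b : Fin 15) : ℕ :=
  ((166027321589795310093619634506905917217467292485677275602473497713675916200825575118012730459455647359071737513304313451593740423557107337267946602164002572456425480069228828546581129428989906745932017744016992674982173843600634950674537321284881126636884511268114792448 : ℕ)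
    >>> (4 * (15 * x.val + b.val))) % 16

theorem step : ∀ x b, inc x b → (x = 0 ∧ b = 7) ∨
    (inc (t (nx x b) x) (t (nx x b) b) ∧ rk (t (nx x b) x) (t (nx x b) b) < rk x b) := by
  decide +kernel

theorem reach (n : ℕ) : ∀ x b, inc x b → rk x b < n → ∃ g ∈ G, g.1 x = 0 ∧ g.2 b = 7 := by
  induction n with
  | zero =>
    intro x b _ h
    omega
  | succ n ih =>
    intro x b hxb hr
    rcases step x b hxb with ⟨rfl, rfl⟩ | ⟨h1, h2⟩
    · exact ⟨1, G.one_mem, rfl, rfl⟩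
    · obtain ⟨g, hg, e1, e2⟩ := ih _ _ h1 (by omega)
      exact ⟨g * (p (nx x b), p (nx x b)), G.mul_mem hg (p_mem _), e1, e2⟩

theorem flagTransitive : FlagTransitive inc G := by
  intro x b y c hxb hyc
  obtain ⟨g, hg, e1, e2⟩ := reach _ x b hxb (Nat.lt_succ_self _)
  obtain ⟨h, hh, f1, f2⟩ := reach _ y c hyc (Nat.lt_succ_self _)
  refine ⟨h⁻¹ * g, G.mul_mem (G.inv_mem hh) hg, ?_, ?_⟩
  · show h.1⁻¹ (g.1 x) = y
    rw [e1, ← f1]
    simp
  · show h.2⁻¹ (g.2 b) = c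
    rw [e2, ← f2]
    simp

theorem imprimitive : PointImprimitive G := by
  refine ⟨Setoid.ker cl, ?_, ?_, ?_⟩
  · intro h
    have h1 : Setoid.ker cl 0 1 := by
      show cl 0 = cl 1
      rfl
    rw [h] at h1
    have h2 : (0 : Fin 15) = 1 := h1
    exact absurd h2 (by decide)
  · intro h
    have h1 : Setoid.ker cl 0 3 := by
      rw [h]
      trivial
    have h2 : cl 0 = cl 3 := h1
    exact absurd h2 (by decide)
  · intro g hg x y
    exact hg.2 x y

theorem isDesign : IsTwoDesign inc 15 8 4 := by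
  refine ⟨by simp, ?_, ?_⟩
  · intro b
    rw [Nat.card_eq_fintype_card, Fintype.card_subtype]
    revert b
    decide +kernel
  · intro x y
    rw [Nat.card_eq_fintype_card, Fintype.card_subtype]
    revert x y
    decide +kernel

/-- **Answer to Q1 (negative)**: there is a symmetric 2-design with a flag-transitive
point-imprimitive group of automorphisms that is isomorphic to no output of the construction
with `v₀, v₁ ≥ 2`. -/
theorem result : ∃ (v k lam : ℕ) (X B : Type) (_ : Finite X) (_ : Finite B) (inc : X → B → Prop)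
    (G : Subgroup (Equiv.Perm X × Equiv.Perm B)), IsTwoDesign inc v k lam ∧ Nat.card B = v ∧
      IsAutGroup inc G ∧ FlagTransitive inc G ∧ PointImprimitive G ∧ ¬ Arises inc :=
  ⟨15, 8, 4, Fin 15, Fin 15, inferInstance, inferInstance, inc, G, isDesign, by simp,
    fun _ hg x b => hg.1 x b, flagTransitive, imprimitive, not_arises inc isDesign.block_size⟩

end Pool.Agent.Results.MP_14f8d9_co.FifteenEightFour
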